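import Pool.Agent.R871.SG.UniS

/-!
MP_4dacf8_ag, Q1: bounded height of the algebraic points of bounded degree of a variety over `ℂ(x)` and
holomorphic multisections of slow growth.
-/

set_option autoImplicit false

namespace Pool.Agent.Results.MP_4dacf8_ag.AlgebraicPoints

open Pool.Agent.R871.SG MvPolynomial

/-- Let `𝒳` be the family over the affine line over the complex numbers, with coordinate `x`, defined by
the polynomials `F` in `x` and in `s` homogeneous coordinates (an equation `v₁ = 1` gives families of
affine varieties). For all `d`, `m` let `T d m` be a closed set (in the space of coefficients) of plane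
affine curves `B = {(x, y) | y ^ d + a₁(x) y ^ (d - 1) + ⋯ + a_d(x) = 0}`, with polynomials `a_i` of
degree at most `m`; for instance the set of all these curves. There is a function `φ` with
`φ r / log r → ∞` for `r → ∞` such that for all closed subsets `𝒵 = {G = 0}` of the family and all
`d`, `m`, `D` the following are equivalent.

(1) All algebraic multisections `B → 𝒳` over the affine line, `B` in `T d m`, without a component in
`𝒵` (points of degree at most `d` of the generic fibre, given by homogeneous coordinates which are
polynomials in `x` and `y`), have height at most `D`, in the following sense: for all linear forms `u`,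
`w` in the homogeneous coordinates, `∑ i, x ^ i * R i (u, w) = 0` on `B`, `i ≤ D`, with forms `R i` of
degree `d` which are not all zero.

(2) All holomorphic multisections `B → 𝒳`, `B` in `T d m`, without a component in `𝒵`, which are given
by homogeneous coordinates `∑ j, y ^ j • f x j`, `0 ≤ j < d`, with an entire function `f` such that
`log ‖f x‖ ≤ φ r` for all `x` with `‖x‖ ≤ r`, for arbitrarily large `r`, are algebraic of height at most
`D`, in the same sense. -/
theorem result {s : ℕ} {ι : Type} (F : ι → MvPolynomial (Fin 1 ⊕ Fin s) ℂ)
    (T : ∀ d m : ℕ, Set (Fin d → Fin (m + 1) → ℂ)) (hT : ∀ d m, IsClosed (T d m)) :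
    ∃ φ : ℝ → ℝ, Grows φ ∧
    ∀ (κ : Type) (G : κ → MvPolynomial (Fin 1 ⊕ Fin s) ℂ) (d m D : ℕ),
      (∀ c ∈ T d m, ∀ P : Fin d → Fin s → Polynomial ℂ, OnMulti F c (pe P) →
        OutMulti G c (pe P) → RelDeg D c (pe P)) ↔
      ∀ c ∈ T d m, ∀ f : ℂ → Fin d → Fin s → ℂ, Differentiable ℂ f → Slow φ f → OnMulti F c f →
        OutMulti G c f → RelDeg D c f :=
  multi_iff F T hT

end Pool.Agent.Results.MP_4dacf8_ag.AlgebraicPoints
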