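import Pool.Agent.R869.NCpt

/-!
MP_4dacf8_ag, Q1: Vojta's height inequality over function fields `F` for the quasi-projective
varieties given by linear combinations, with arbitrary coefficients in `F` (so the moduli vary), of
the powers `x_j ^ d` and of `s` further monomials of degree `d`, in given sets of variables, for
almost all choices of these monomials; with a uniform constant, which depends on the monomials only,
and an error term which is linear in the heights of the coefficients; an equivalence with log general
type for the irreducible components; a combinatorial criterion, which is necessary and sufficient for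
hypersurfaces with arbitrary coefficients.

`TuplesIn I d`, `AlmostAllIn I P`, `Spread I m J` (`Pool/Agent/R869/SDefs.lean`): the tuples of
exponent vectors of degree `d`, the `i`-th one of a monomial in the variables from `I i`; the
proportion of the tuples with the property `P` tends to `1` for `d → ∞`; for all colourings of the
variables which are not constant on `J`, `∑ min (m + 1) (a v + b v) ≤ m (N + 2) + 1`, the sum over the
colours `v` on `J`, where `a v` and `b v` are the numbers of the variables from `J` and of the sets
`I i ⊆ J` with the colour `v`, and `N` is the number of the sets `I i ⊆ J` with different colours.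
`withPowers` (`WDensDefs.lean`): the set of the exponent vectors `a i` and of those of the `x_j ^ d`.
`Loose G J` (`USharpDefs.lean`): `G` does not have exactly one monomial in the variables from `J`, and
there is a colouring of the variables with `V ≥ 2` colours on `J` such that `N + D + 4 ≤ 2 V`, where
`N` is the number of the monomials of `G` in the variables from `J` whose variables have different
colours, and `D` is the number of the colours on `J` for which exactly one monomial of `G` in the
variables from `J` has all its variables of this colour.
`GenCoeffs G T` (`WGen.lean`): the coefficient vectors of the `m` forms `G e` at any `m` elements of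
`T` are linearly independent. `cut`, `PtL`, `Vojta`, `VojtaV` (`NVojDefs.lean`): the places at which
a point meets the hyperplanes `x_j = 0`, `j` in `U`; the points of `X = {G = 0, x_j ≠ 0 for j in U}`
over an extension of `F`; Vojta's inequality for the points with a given property; and for the points
of the subvariety with generic point `y` outside of a proper closed subset. From the starting
repository: `IsFF k F`: `F` is a function field of one variable over `k`; `pht` (`W603/PV/Hgt.lean`):
the height of a point of projective space relative to the field of its coordinates; `hgt`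
(`W603/LV/Hgt.lean`): the height of an element; `canDeg` (`W603/LV/Ex.lean`): `2 g - 2`;
`SubVarU`, `OffU`, `LogGeneralType`, `IsComponentU`, `Acts` (`W602/GT`): the function fields and
generic points of the closed subvarieties of `X`, the places over the boundary, log general type, the
irreducible components, a diagonal one-parameter group acts on the subvariety.
-/

set_option autoImplicit false

namespace Pool.Agent.Results.MP_4dacf8_ag.AlmostAllMonomials

open FF MvPolynomial Pool.Agent.W602.GT Pool.Agent.W603.LV Pool.Agent.W603.PV Pool.Agent.R869.Wd

/-- Uniform height inequality for the exponents in `T`: for all systems of forms `G` with exponents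
in `T` and coefficients in a function field `L`, all finite sets `C` which contain the coefficients,
and all points `f` of `X = {G = 0, x_j ≠ 0 for j in U}` over `L`, the orbit of `f` under some diagonal
one-parameter group is not a point and is contained in `X`, or

`h(f) ≤ A (max (2 g(L) - 2 + N1(f)) 0 + ∑_{c in C} h(c))`. -/
def UniformVojta {n : ℕ} (T : Finset (Fin (n + 1) →₀ ℕ)) (A : ℕ) : Prop :=
  ∀ (k L : Type) [Field k] [IsAlgClosed k] [CharZero k] [Field L] [Algebra k L] [IsFF k L]
    (m : ℕ) (G : Fin m → MvPolynomial (Fin (n + 1)) L) (C : Finset L),
    (∀ e, (G e).support ⊆ T ∧ ∀ α ∈ (G e).support, (G e).coeff α ∈ C) →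
    ∀ (U : Set (Fin (n + 1))) (f : Fin (n + 1) → L), PtL U G L f →
      (∃ b : Fin (n + 1) → ℤ, (∃ i i', f i ≠ 0 ∧ f i' ≠ 0 ∧ b i ≠ b i') ∧
        ∀ t : L, t ≠ 0 → PtL U G L fun j => t ^ b j * f j) ∨
      pht k f ≤ A * (max (canDeg k L + (cut k U f).ncard) 0 + ∑ c ∈ C, hgt k c)

/-- For the irreducible components `V` of positive dimension of `X = {G = 0, x_j ≠ 0 for j in U}` over
the algebraic closure of `F`, the following are equivalent: `V` is of log general type; Vojta's height
inequality holds, with the slope `A`, for the points of `V` over the finite extensions of `F` outside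
of a proper closed subset; it does so with some slope; all diagonal one-parameter groups which act on
`V` act trivially. -/
def Components (k F : Type) [Field k] [Field F] [Algebra k F] {n m : ℕ} (U : Set (Fin (n + 1)))
    (A : ℕ) (G : Fin m → MvPolynomial (Fin (n + 1)) F) : Prop :=
  ∀ (K : Type) [Field K] [Algebra (AlgebraicClosure F) K] (w : ℕ) (y : Fin (n + 1) → K), 1 ≤ w →
    SubVarU U (fun e => map (algebraMap F (AlgebraicClosure F)) (G e)) K w y →
    IsComponentU U (fun e => map (algebraMap F (AlgebraicClosure F)) (G e)) y →
    [LogGeneralType (AlgebraicClosure F) K w (OffU U y), VojtaV k F U A y,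
      ∃ A', VojtaV k F U A' y,
      ∀ b : Fin (n + 1) → ℤ, Acts U (AlgebraicClosure F) y b → ∀ i i', y i ≠ 0 → y i' ≠ 0 →
        b i = b i'].TFAE

/-- (1) For all nonempty sets `J` of variables which contain `U`, the following are equivalent:
`Loose G J`; over the algebraic closure of `F`, `X = {G = 0, x_j ≠ 0 for j in U}` has a closed
subvariety of positive dimension, not of log general type, on which exactly the `x_j`, `j` in `J`, do
not vanish identically; Vojta's height inequality fails, for all slopes `A'`, for the points of `X`
over the finite extensions of `F` for which exactly the `x_j`, `j` in `J`, are nonzero; it fails for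
the slope `A`. (2) The following are equivalent: `Loose G J` for no `J` which contains `U`; all closed
subvarieties of positive dimension of `X` over the algebraic closure are of log general type;
Vojta's height inequality holds, with some slope, for all points of `X` over the finite extensions of
`F`; it does so with the slope `A`. -/
def LooseCriterion (k F : Type) [Field k] [Field F] [Algebra k F] {n : ℕ} (U : Set (Fin (n + 1)))
    (A : ℕ) (G : MvPolynomial (Fin (n + 1)) F) : Prop :=
  (∀ J : Finset (Fin (n + 1)), J.Nonempty → (∀ j ∈ U, j ∈ J) →
    [Loose G J,
      ∃ (K : Type) (_ : Field K) (_ : Algebra (AlgebraicClosure F) K) (w : ℕ)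
        (y : Fin (n + 1) → K), 1 ≤ w ∧
        SubVarU U (fun _ : Fin 1 => map (algebraMap F (AlgebraicClosure F)) G) K w y ∧
        (∀ j, y j ≠ 0 ↔ j ∈ J) ∧ ¬ LogGeneralType (AlgebraicClosure F) K w (OffU U y),
      ¬ ∃ A', Vojta k F U A' (fun L _ _ f => PtL U (fun _ : Fin 1 => G) L f ∧
        ∀ j, f j ≠ 0 ↔ j ∈ J),
      ¬ Vojta k F U A (fun L _ _ f => PtL U (fun _ : Fin 1 => G) L f ∧
        ∀ j, f j ≠ 0 ↔ j ∈ J)].TFAE) ∧
  [∀ J : Finset (Fin (n + 1)), (∀ j ∈ U, j ∈ J) → ¬ Loose G J,
    ∀ (K : Type) [Field K] [Algebra (AlgebraicClosure F) K] (w : ℕ) (y : Fin (n + 1) → K),
      1 ≤ w → SubVarU U (fun _ : Fin 1 => map (algebraMap F (AlgebraicClosure F)) G) K w y →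
      LogGeneralType (AlgebraicClosure F) K w (OffU U y),
    ∃ A', Vojta k F U A' (fun L _ _ f => PtL U (fun _ : Fin 1 => G) L f),
    Vojta k F U A (fun L _ _ f => PtL U (fun _ : Fin 1 => G) L f)].TFAE

/-- Let `I i` be nonempty sets of variables. For almost all tuples of `s` monomials of degree `d`, the
`i`-th one in the variables from `I i`, there is a number `A` such that for all systems `G` of linear
combinations of these monomials and the `x_j ^ d` with coefficients in function fields:
the uniform height inequality holds; for the irreducible components over the algebraic closure of `F`,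
Vojta's height inequality outside of a proper closed subset is equivalent to log general type; if
the coefficient vectors are in general position, then Vojta's height inequality holds for the points
for which the set of the nonzero coordinates satisfies `Spread`; for one form, with arbitrary
coefficients in `F`, the criterion `Loose` is necessary and sufficient. -/
theorem result (n s : ℕ) (I : Fin s → Finset (Fin (n + 1))) (hI : ∀ i, (I i).Nonempty) :
    AlmostAllIn I fun d a => ∃ A : ℕ, UniformVojta (withPowers d a) A ∧
      ∀ (k F : Type) [Field k] [IsAlgClosed k] [CharZero k] [Field F] [Algebra k F] [IsFF k F]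
        (U : Set (Fin (n + 1))),
        (∀ (m : ℕ) (G : Fin m → MvPolynomial (Fin (n + 1)) F),
          (∀ e, (G e).support ⊆ withPowers d a) → Components k F U A G ∧
          (GenCoeffs G (withPowers d a) → Vojta k F U A (fun L _ _ f => PtL U G L f ∧
            ∀ J : Finset (Fin (n + 1)), (∀ j, f j ≠ 0 ↔ j ∈ J) → Spread I m J))) ∧
        ∀ G : MvPolynomial (Fin (n + 1)) F, G.support ⊆ withPowers d a →
          LooseCriterion k F U A G := by
  classical
  refine almost_typI hI fun d a h => ?_
  obtain ⟨s', N, hg⟩ := h.good
  obtain ⟨A, hA⟩ := hg.nbound
  refine ⟨A, ?_, ?_⟩
  · intro k L _ _ _ _ _ _ m G C hGC U f hf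
    have h1 := hA k L L (Fin m) G C (fun e => (hGC e).1) (fun e => (hGC e).2) U f hf
    by_cases hp : Parts G f
    · left
      obtain ⟨b, i, i', hi, hi', hb, hw⟩ := hp
      refine ⟨b, ⟨i, i', hi, hi', hb⟩, fun t ht => ⟨?_, fun j hj =>
        mul_ne_zero (zpow_ne_zero _ ht) (hf.unit j hj), fun e => ?_⟩⟩
      · intro h0
        exact mul_ne_zero (zpow_ne_zero _ ht) hi (congrFun h0 i)
      · exact val_orbit (L := L) f b ht (G e) (hw e)
    · exact Or.inr (h1 hp)
  · intro k F _ _ _ _ _ _ U
    refine ⟨fun m G hG => ⟨?_, fun hgc => h.genN hA hG hgc⟩, fun G hG => ⟨?_, h.allN hA hG⟩⟩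
    · intro K _ _ w y hw hy hcomp
      exact comp_tfaeN hg hA hG hw hy hcomp
    · intro J hJ hU
      exact h.critN hA hG hJ hU

end Pool.Agent.Results.MP_4dacf8_ag.AlmostAllMonomials
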