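import Pool.Agent.R869.VEnd

/-!
MP_4dacf8_ag, Q1: Vojta's height inequality over function fields for the quasi-projective varieties
over a function field `F` with a relation `a_1 u_1 b_1 ^ N_1 + ... + a_s u_s b_s ^ N_s = 0` between
high powers with arbitrary cofactors.

The language of the starting repository is used: `IsFF k F`: `F` is a function field of one variable
over `k`; `IsHomog p` (`Pool/Agent/W603/PV/Main.lean`): the ideal is homogeneous; `pht k y`
(`Pool/Agent/W603/PV/Hgt.lean`): the height of the point `y` of projective space relative to the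
field of its coordinates; `canDeg k L` (`Pool/Agent/W603/LV/Ex.lean`): the degree `2 g - 2` of the
canonical divisor of the curve with function field `L`; `meets Q q y`
(`Pool/Agent/W603/PV/Defs.lean`): the places at which the point `y` meets the divisor `Q = 0`.
`CoRel`, `CoRel.R`, `CoRel.Large` are defined in `Pool/Agent/R869/CoDefs.lean`, `CoRel.Base` in
`Pool/Agent/R869/VGeo.lean`.
-/

set_option autoImplicit false

namespace Pool.Agent.Results.MP_4dacf8_ag.CofactorRelationPoints

open FF MvPolynomial Pool.Agent.W602.GT Pool.Agent.W603.LV Pool.Agent.W603.PV Pool.Agent.R869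

/-- An example: the complement in `P^n` of the hypersurface `a_1 b_1 ^ N_1 + ... + a_s b_s ^ N_s = 0`
over the field `F` has a relation with cofactors, for all forms `a_j` and all nonconstant forms
`b_j` without common zeros over the algebraic closure of `F` such that all terms have the same
degree and no partial sum vanishes identically. -/
theorem complement {F : Type} [Field F] {n s : ℕ} (a b : Fin s → MvPolynomial (Fin (n + 1)) F)
    (N δ m : Fin s → ℕ) (e N0 : ℕ) (ha : ∀ l, (a l).IsHomogeneous (δ l))
    (hb : ∀ l, (b l).IsHomogeneous (m l)) (hm : ∀ l, 0 < m l) (hdeg : ∀ l, δ l + N l * m l = e)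
    (hbase : ∀ x : Fin (n + 1) → AlgebraicClosure F, x ≠ 0 → ∃ l, aeval x (b l) ≠ 0)
    (hno : ∀ S : Finset (Fin s), S.Nonempty → ∑ l ∈ S, a l * b l ^ N l ≠ 0) :
    ∃ C : CoRel (⊥ : Ideal (MvPolynomial (Fin (n + 1)) F)) (∑ l, a l * b l ^ N l) e
      (Option (Fin s)), (∀ l, C.a (some l) = a l ∧ C.b (some l) = b l ∧ C.N (some l) = N l ∧
        C.δ (some l) = δ l) ∧ C.N none = N0 ∧ C.δ none = 0 ∧ C.Base := by
  classical
  set P := ∑ l, a l * b l ^ N l with hF
  have hterm : ∀ l, (a l * b l ^ N l).IsHomogeneous e := fun l => by
    have := (ha l).mul ((hb l).pow (N l))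
    rwa [mul_comm (m l), hdeg l] at this
  have hFh : P.IsHomogeneous e := IsHomogeneous.sum _ _ _ fun l _ => hterm l
  -- the sum over a set of indices
  have hsum : ∀ S : Finset (Option (Fin s)), ∑ l ∈ S,
      (l.elim (-1) a) * (l.elim P fun _ => 1) * (l.elim 1 b) ^ (l.elim N0 N) =
      (if none ∈ S then -P else 0) + ∑ l ∈ S.eraseNone, a l * b l ^ N l := by
    intro S
    have h1 : ∑ l ∈ S, (l.elim (-1) a) * (l.elim P fun _ => 1) *
        (l.elim (1 : MvPolynomial (Fin (n + 1)) F) b) ^ (l.elim N0 N) =
        ∑ l : Option (Fin s), if l ∈ S then (l.elim (-1) a) * (l.elim P fun _ => 1) *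
          (l.elim (1 : MvPolynomial (Fin (n + 1)) F) b) ^ (l.elim N0 N) else 0 := by
      rw [Finset.sum_ite_mem, Finset.univ_inter]
    rw [h1, Fintype.sum_option]
    congr 1
    · simp
    · rw [← Finset.sum_filter]
      refine Finset.sum_congr ?_ fun l _ => ?_
      · ext l
        simp
      · simp
  refine ⟨{ a := fun l => l.elim (-1) a
            u := fun l => l.elim P fun _ => 1
            b := fun l => l.elim 1 b
            N := fun l => l.elim N0 N
            δ := fun l => l.elim 0 δ
            d := fun l => l.elim e fun _ => 0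
            m := fun l => l.elim 0 m
            e := e
            J1 := Finset.univ.image some
            homa := ?_
            homu := ?_
            homb := ?_
            deg := ?_
            unit := ?_
            one := ?_
            pos := ?_
            base := ?_
            rel := ?_
            no := ?_ }, fun l => ⟨rfl, rfl, rfl, rfl⟩, rfl, rfl, ?_⟩
  · rintro (_ | l)
    · have h1 := (isHomogeneous_one (Fin (n + 1)) F).neg
      exact h1
    · exact ha l
  · rintro (_ | l)
    · exact hFh
    · exact isHomogeneous_one _ _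
  · rintro (_ | l)
    · exact isHomogeneous_one _ _
    · exact hb l
  · rintro (_ | l)
    · simp
    · simpa using hdeg l
  · rintro (_ | l)
    · exact ⟨1, 0, 1, isHomogeneous_one _ _, by simp, by simp⟩
    · exact ⟨1, 0, 0, isHomogeneous_one _ _, by simp, by simp⟩
  · rintro l hl
    rw [Finset.mem_image] at hl
    obtain ⟨l', _, rfl⟩ := hl
    rfl
  · rintro l hl
    rw [Finset.mem_image] at hl
    obtain ⟨l', _, rfl⟩ := hl
    exact hm l'
  · intro x hx _
    obtain ⟨l, hl⟩ := hbase (fun j => algebraMap F (AlgebraicClosure F) (x j)) fun h => hx (by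
      funext j
      exact (map_eq_zero _).1 (congrFun h j))
    refine ⟨some l, Finset.mem_image.2 ⟨l, Finset.mem_univ l, rfl⟩, fun h0 => hl ?_⟩
    have h1 : aeval (fun j => algebraMap F (AlgebraicClosure F) (x j)) (b l) =
        algebraMap F (AlgebraicClosure F) (eval x (b l)) := by
      have h2 := MvPolynomial.aeval_algebraMap_apply (AlgebraicClosure F) x (b l)
      rw [← MvPolynomial.coe_aeval_eq_eval]
      exact h2
    change eval x (b l) = 0 at h0
    rw [h1, h0, map_zero]
  · rw [Ideal.mem_bot]
    refine (hsum Finset.univ).trans ?_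
    have : (Finset.univ : Finset (Option (Fin s))).eraseNone = Finset.univ := by
      ext l
      simp
    rw [this]
    simp [hF]
  · intro S hS hS' h0
    rw [Ideal.mem_bot] at h0
    have h1 := (hsum S).symm.trans h0
    by_cases hn : none ∈ S
    · rw [if_pos hn] at h1
      have h2 : (Finset.univ \ S.eraseNone).Nonempty := by
        rw [Finset.sdiff_nonempty]
        intro h3
        apply hS'
        ext l
        rcases l with _ | l
        · simpa using hn
        · have h4 := h3 (Finset.mem_univ l)
          simpa using h4
      apply hno _ h2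
      have h3 : ∑ l ∈ Finset.univ \ S.eraseNone, a l * b l ^ N l +
          ∑ l ∈ S.eraseNone, a l * b l ^ N l = P := Finset.sum_sdiff (Finset.subset_univ _)
      linear_combination h3 - h1
    · rw [if_neg hn, zero_add] at h1
      apply hno _ _ h1
      obtain ⟨l, hl⟩ := hS
      rcases l with _ | l
      · exact absurd hl hn
      · exact ⟨l, by simpa using hl⟩
  · intro x hx _
    obtain ⟨l, hl⟩ := hbase x hx
    exact ⟨some l, Finset.mem_image.2 ⟨l, Finset.mem_univ l, rfl⟩, hl⟩

/-- Let `F` be a function field of one variable over the algebraically closed field `k` of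
characteristic zero. Let `X` be the quasi-projective variety over `F` in `P^n` with the homogeneous
prime ideal `p` and the boundary `Q = 0`, with a relation with cofactors `C` of degree `e` such that
the cofactors have degree at most `δ` and the exponents are at least `s ^ 4 * (δ + 1)`, where `s` is
the number of terms, and such that the forms `b l`, `l ∈ J1`, have no common zeros on the closed
variety over the algebraic closure of `F`. Let `R` be the product of the proper partial sums of the
relation. Then the form `Q R` does not vanish on `X`, and there is a number `A` such that for all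
finite extensions `L` of `F` and all points `y` of `X` over `L` with `R (y) ≠ 0`

`e h(y) ≤ (s - 1) ^ 2 (s - 2) (2 g(L) - 2 + N1) + A [L : F]`,

where `h(y)` is the height of `y` relative to `L` and `N1` is the number of the places of `L` at
which `y` meets the boundary. The factor `(s - 1) ^ 2 (s - 2) / e` depends neither on the dimension
nor on the coefficients of the equations. -/
theorem result {k F : Type} [Field k] [IsAlgClosed k] [CharZero k] [Field F] [Algebra k F]
    [IsFF k F] {n : ℕ} {J : Type} [Fintype J] {p : Ideal (MvPolynomial (Fin (n + 1)) F)} [p.IsPrime]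
    {Q : MvPolynomial (Fin (n + 1)) F} {q δ : ℕ} (hp : IsHomog p) (hx : ∃ j, X j ∉ p)
    (hQ : Q.IsHomogeneous q) (hQp : Q ∉ p) (C : CoRel p Q q J) (hC : C.Large δ) (hb : C.Base)
    {s : ℕ} (hs : s = Fintype.card J) :
    0 < C.e ∧ (∃ d, (Q * C.R).IsHomogeneous d) ∧ Q * C.R ∉ p ∧
    ∃ A : ℕ, ∀ (L : Type) [Field L] [Algebra k L] [Algebra F L] [IsScalarTower k F L]
      [FiniteDimensional F L] (y : Fin (n + 1) → L), y ≠ 0 → (∀ H ∈ p, aeval y H = 0) →
      aeval y (Q * C.R) ≠ 0 →
      C.e * pht k y ≤ ((s - 1) ^ 2 * (s - 2) : ℕ) *
        (canDeg k L + (meets (k := k) Q q y).ncard) + A * Module.finrank F L := by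
  subst hs
  have he : 0 < C.e := by
    have hJ : C.J1.Nonempty := by
      by_contra hcon
      rw [Finset.not_nonempty_iff_eq_empty] at hcon
      obtain ⟨i, hi⟩ := hx
      obtain ⟨M, g, hM⟩ := C.base_mem hb i
      rw [hcon, Finset.sum_empty, sub_zero] at hM
      exact hi (Ideal.IsPrime.mem_of_pow_mem inferInstance M hM)
    obtain ⟨l, hl⟩ := hJ
    have h1 := C.deg l
    have h2 := Nat.mul_pos (hC.pos l) (C.pos l hl)
    omega
  obtain ⟨c, hc⟩ := C.R_hom
  obtain ⟨A, hA⟩ := CoRel.vojta (k := k) hp C hC hb
  refine ⟨he, ⟨_, hQ.mul hc⟩, fun h => ?_, A, ?_⟩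
  · rcases Ideal.IsPrime.mem_or_mem inferInstance h with h | h
    · exact hQp h
    · exact C.R_notMem h
  · intro L _ _ _ _ _ y hy0 hy hyR
    rw [map_mul] at hyR
    have h1 := hA L y hy0 hy (left_ne_zero_of_mul hyR) (right_ne_zero_of_mul hyR)
    have h2 : 2 * LLs (Fintype.card J) = (Fintype.card J - 1) ^ 2 * (Fintype.card J - 2) := by
      have h2 := hC.1
      generalize Fintype.card J = s at *
      obtain ⟨t, rfl⟩ : ∃ t, s = t + 2 := ⟨s - 2, by omega⟩
      rw [two_LLs t]
      have e1 : t + 2 - 1 = t + 1 := by omega
      have e2 : t + 2 - 2 = t := by omega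
      rw [e1, e2]
      ring
    rwa [h2] at h1

end Pool.Agent.Results.MP_4dacf8_ag.CofactorRelationPoints
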