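import Pool.Agent.R871.SG.AlgF

/-!
MP_4dacf8_ag, Q1: bounded height of algebraic sections over an affine curve and holomorphic sections of
slow growth.
-/

set_option autoImplicit false

namespace Pool.Agent.Results.MP_4dacf8_ag.SlowSections

open Pool.Agent.R871.SG MvPolynomial

/-- Let `B` be an irreducible affine variety in `ℂᵖ` (for instance a smooth affine curve), given by the
prime ideal `I`, and let `F` be equations in the coordinates of `ℂᵖ` and in `s` further variables. There
is a function `φ` with `φ r / log r → ∞` for `r → ∞` such that the following holds for all families `G`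
of polynomials in the same variables and all numbers `D`.

(A) Let `𝒳 ⊂ B × ℂˢ` be the family of affine varieties given by the equations `F` and let `𝒵 ⊂ 𝒳` be
given by `G = 0`. The following are equivalent: all algebraic sections `B → 𝒳` not contained in `𝒵` are
on `B` given by polynomials of degree at most `D`; all holomorphic sections `B → 𝒳` not contained in
`𝒵`, which are restrictions of entire maps `f : ℂᵖ → ℂˢ` such that `log ‖f z‖ ≤ φ r` for all `z` with
`‖z‖ ≤ r`, for arbitrarily large `r`, are on `B` given by polynomials of degree at most `D`.

(B) For equations homogeneous in the `s` variables and the families `𝒳 ⊂ B × ℙˢ⁻¹`, `𝒵` of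
projective varieties, the corresponding statements on sections given by homogeneous coordinates, which
are restrictions of polynomials or of entire maps `f` and do not vanish identically on `B`, are
equivalent. -/
theorem result {p s : ℕ} {ι : Type} (I : Ideal (MvPolynomial (Fin p) ℂ)) [I.IsPrime]
    (F : ι → MvPolynomial (Fin p ⊕ Fin s) ℂ) :
    ∃ φ : ℝ → ℝ, Grows φ ∧ ∀ (κ : Type) (G : κ → MvPolynomial (Fin p ⊕ Fin s) ℂ) (D : ℕ),
      ((∀ P : Fin s → MvPolynomial (Fin p) ℂ, HolSec I F (mv P) → OutSec I G (mv P) →
        DegLE I D (mv P)) ↔
      ∀ f, HolSec I F f → SlowM φ f → OutSec I G f → DegLE I D f) ∧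
      ((∀ P : Fin s → MvPolynomial (Fin p) ℂ, HolSec I F (mv P) → NotZero I (mv P) →
        OutSec I G (mv P) → ProjDegLE I D (mv P)) ↔
      ∀ f, HolSec I F f → SlowM φ f → NotZero I f → OutSec I G f → ProjDegLE I D f) :=
  sec_iff I F

end Pool.Agent.Results.MP_4dacf8_ag.SlowSections
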